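import Pool.Agent.W544.KF.Defs2

open CategoryTheory MonoidalCategory

namespace Pool.Agent.W137.KF

open Pool.Agent.W544.KF

universe v u

variable {D : Type u} [Category.{v} D] [MonoidalCategory D] [SymmetricCategory D]

theorem lemA (X Y Z : D) (γ : X ⊗ Y ⟶ 𝟙_ D) :
    X ◁ (β_ Z Y).hom ≫ (α_ X Y Z).inv ≫ γ ▷ Z ≫ (λ_ Z).hom =
      (α_ X Z Y).inv ≫ (β_ X Z).hom ▷ Y ≫ (α_ Z X Y).hom ≫ Z ◁ γ ≫ (ρ_ Z).hom := by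
  have h1 : Z ◁ γ ≫ (ρ_ Z).hom = (β_ Z (X ⊗ Y)).hom ≫ γ ▷ Z ≫ (λ_ Z).hom := by
    rw [← BraidedCategory.braiding_naturality_right_assoc, braiding_leftUnitor]
  rw [h1, BraidedCategory.braiding_tensor_right_hom]
  simp only [Category.assoc, Iso.hom_inv_id_assoc]
  rw [← comp_whiskerRight_assoc, SymmetricCategory.symmetry, id_whiskerRight, Category.id_comp,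
    Iso.inv_hom_id_assoc]

theorem lemB (X V W : D) (c : W ⊗ V ⟶ 𝟙_ D) :
    (α_ X W V).inv ≫ (β_ X W).hom ▷ V ≫ (α_ W X V).hom ≫ W ◁ (β_ X V).hom ≫
      (α_ W V X).inv ≫ c ▷ X ≫ (λ_ X).hom = X ◁ c ≫ (ρ_ X).hom := by
  have h1 : X ◁ c ≫ (ρ_ X).hom = (β_ X (W ⊗ V)).hom ≫ c ▷ X ≫ (λ_ X).hom := by
    rw [← BraidedCategory.braiding_naturality_right_assoc, braiding_leftUnitor]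
  rw [h1, BraidedCategory.braiding_tensor_right_hom]
  simp only [Category.assoc]

theorem cap (X₁ X₂ Y₁ Y₂ : D) (c₁ : Y₁ ⊗ X₁ ⟶ 𝟙_ D) (c₂ : Y₂ ⊗ X₂ ⟶ 𝟙_ D) :
    (β_ (X₁ ⊗ X₂) (Y₂ ⊗ Y₁)).hom ≫ (𝟙 _ ⊗≫ Y₂ ◁ (c₁ ▷ X₂) ⊗≫ c₂) =
      𝟙 _ ⊗≫ X₁ ◁ ((β_ X₂ Y₂).hom ≫ c₂) ▷ Y₁ ⊗≫ ((β_ X₁ Y₁).hom ≫ c₁) := by
  obtain ⟨γ, hγ⟩ : ∃ γ : X₁ ⊗ Y₁ ⟶ 𝟙_ D, γ = (β_ X₁ Y₁).hom ≫ c₁ := ⟨_, rfl⟩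
  calc _ = 𝟙 _ ⊗≫ X₁ ◁ (β_ X₂ Y₂).hom ▷ Y₁ ⊗≫ ((X₁ ⊗ Y₂) ◁ (β_ X₂ Y₁).hom ≫
        (β_ X₁ Y₂).hom ▷ (Y₁ ⊗ X₂)) ⊗≫ Y₂ ◁ ((β_ X₁ Y₁).hom ≫ c₁) ▷ X₂ ⊗≫ c₂ := by
        rw [BraidedCategory.braiding_tensor_left_hom, BraidedCategory.braiding_tensor_right_hom,
          BraidedCategory.braiding_tensor_right_hom]
        monoidal
    _ = 𝟙 _ ⊗≫ X₁ ◁ (β_ X₂ Y₂).hom ▷ Y₁ ⊗≫ (β_ X₁ Y₂).hom ▷ (X₂ ⊗ Y₁) ⊗≫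
        Y₂ ◁ (X₁ ◁ (β_ X₂ Y₁).hom ≫ (α_ X₁ Y₁ X₂).inv ≫ γ ▷ X₂ ≫ (λ_ X₂).hom) ⊗≫ c₂ := by
        rw [whisker_exchange, hγ]
        monoidal
    _ = 𝟙 _ ⊗≫ X₁ ◁ (β_ X₂ Y₂).hom ▷ Y₁ ⊗≫ (β_ X₁ Y₂).hom ▷ (X₂ ⊗ Y₁) ⊗≫
        Y₂ ◁ (β_ X₁ X₂).hom ▷ Y₁ ⊗≫ ((Y₂ ⊗ X₂) ◁ γ ≫ c₂ ▷ (𝟙_ D)) ⊗≫ 𝟙 _ := by
        rw [lemA]
        monoidal
    _ = 𝟙 _ ⊗≫ X₁ ◁ (β_ X₂ Y₂).hom ▷ Y₁ ⊗≫ ((α_ X₁ Y₂ X₂).inv ≫ (β_ X₁ Y₂).hom ▷ X₂ ≫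
        (α_ Y₂ X₁ X₂).hom ≫ Y₂ ◁ (β_ X₁ X₂).hom ≫ (α_ Y₂ X₂ X₁).inv ≫ c₂ ▷ X₁ ≫
        (λ_ X₁).hom) ▷ Y₁ ⊗≫ γ := by
        rw [whisker_exchange]
        monoidal
    _ = _ := by
        rw [lemB, hγ]
        monoidal

theorem tens : S_tens.{v, u} := by
  intro D _ _ _ X₁ X₂ Y₁ Y₂ _ _ A B f
  unfold ptr
  rw [ExactPairing.tensor_coevaluation, ExactPairing.tensor_evaluation, cap]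
  monoidal

end Pool.Agent.W137.KF
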